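import Mathlib

set_option autoImplicit false
open Polynomial

namespace Pool.Agent.MP3bbc5b

/-- `E a b g = (a g)' + b g`. -/
noncomputable def E (a b g : ℂ[X]) : ℂ[X] := derivative (a * g) + b * g

/-- all the moments `L (f^k g)`, `k ≥ 0`, vanish. -/
def InK (L : ℂ[X] →ₗ[ℂ] ℂ) (f g : ℂ[X]) : Prop := ∀ k : ℕ, L (f ^ k * g) = 0

lemma InK.add {L : ℂ[X] →ₗ[ℂ] ℂ} {f g h : ℂ[X]} (hg : InK L f g) (hh : InK L f h) :
    InK L f (g + h) := by
  intro k
  rw [mul_add, map_add, hg k, hh k, add_zero]

lemma InK.smulC {L : ℂ[X] →ₗ[ℂ] ℂ} {f g : ℂ[X]} (c : ℂ) (hg : InK L f g) :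
    InK L f (C c * g) := by
  intro k
  have : f ^ k * (C c * g) = c • (f ^ k * g) := by
    rw [smul_eq_C_mul]; ring
  rw [this, map_smul, hg k, smul_zero]

lemma InK.zero (L : ℂ[X] →ₗ[ℂ] ℂ) (f : ℂ[X]) : InK L f 0 := by
  intro k; simp

lemma InK.mulf {L : ℂ[X] →ₗ[ℂ] ℂ} {f g : ℂ[X]} (hg : InK L f g) : InK L f (f * g) := by
  intro k
  have : f ^ k * (f * g) = f ^ (k + 1) * g := by ring
  rw [this, hg]

lemma InK.aeval {L : ℂ[X] →ₗ[ℂ] ℂ} {f g : ℂ[X]} (p : ℂ[X]) (hg : InK L f g) :
    InK L f (aeval f p * g) := by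
  induction p using Polynomial.induction_on' with
  | add p q hp hq => rw [map_add, add_mul]; exact hp.add hq
  | monomial n c =>
    rw [aeval_monomial]
    have : (algebraMap ℂ ℂ[X]) c = C c := rfl
    rw [this, mul_assoc]
    apply InK.smulC
    induction n with
    | zero => simpa using hg
    | succ n ih => rw [pow_succ', mul_assoc]; exact ih.mulf

lemma E_mul_pow (a b f g : ℂ[X]) (k : ℕ) :
    E a b (f ^ k * g) = f ^ k * E a b g + C (k : ℂ) * (f ^ (k - 1) * (a * derivative f * g)) := by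
  unfold E
  have h1 : a * (f ^ k * g) = f ^ k * (a * g) := by ring
  rw [h1, derivative_mul, derivative_pow]
  simp only [map_natCast]
  ring

lemma InK_E {L : ℂ[X] →ₗ[ℂ] ℂ} {a b f g : ℂ[X]} (hE : ∀ g, L (E a b g) = 0)
    (h : InK L f (a * derivative f * g)) : InK L f (E a b g) := by
  intro k
  have h1 := hE (f ^ k * g)
  rw [E_mul_pow, map_add] at h1
  have h2 : L (C (k : ℂ) * (f ^ (k - 1) * (a * derivative f * g))) = 0 := by
    rw [← smul_eq_C_mul, map_smul, h (k - 1), smul_zero]
  rw [h2, add_zero] at h1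
  exact h1

/-- The product of `X - τ` over a multiset. -/
noncomputable def hs (s : Multiset ℂ) : ℂ[X] := (s.map (fun τ => X - C τ)).prod

lemma hs_cons (τ : ℂ) (s : Multiset ℂ) : hs (τ ::ₘ s) = (X - C τ) * hs s := by
  simp [hs]

lemma hs_zero : hs 0 = 1 := by simp [hs]

/-- Log derivative of `hs s` times `A`. -/
lemma exists_u (A : ℂ[X]) (s : Multiset ℂ) (hA : ∀ τ ∈ s, A.eval τ = 0) :
    ∃ u : ℂ[X], A * derivative (hs s) = hs s * u ∧
      ∀ τ, A.eval τ = 0 → u.eval τ = (s.count τ : ℂ) * (derivative A).eval τ := by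
  induction s using Multiset.induction_on with
  | empty => exact ⟨0, by simp [hs_zero], by intro τ _; simp⟩
  | cons σ s ih =>
    obtain ⟨u, hu1, hu2⟩ := ih (fun τ hτ => hA τ (Multiset.mem_cons_of_mem hτ))
    have hσ : A.eval σ = 0 := hA σ (Multiset.mem_cons_self σ s)
    obtain ⟨Aσ, hAσ⟩ := dvd_iff_isRoot.mpr hσ
    refine ⟨u + Aσ, ?_, ?_⟩
    · rw [hs_cons, derivative_mul]
      simp only [derivative_sub, derivative_X, derivative_C, sub_zero, one_mul]
      calc A * (hs s + (X - C σ) * derivative (hs s))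
          = hs s * A + (X - C σ) * (A * derivative (hs s)) := by ring
        _ = hs s * A + (X - C σ) * (hs s * u) := by rw [hu1]
        _ = hs s * ((X - C σ) * Aσ) + (X - C σ) * (hs s * u) := by rw [← hAσ]
        _ = (X - C σ) * hs s * (u + Aσ) := by ring
    · intro τ hτ
      rw [eval_add, hu2 τ hτ, Multiset.count_cons]
      by_cases h : τ = σ
      · subst h
        have : (derivative A).eval τ = Aσ.eval τ := by
          rw [hAσ, derivative_mul]; simp
        rw [this]; simp; ring
      · have h3 : Aσ.eval τ = 0 := by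
          have h4 : (τ - σ) * Aσ.eval τ = 0 := by
            have := hτ
            rw [hAσ] at this
            simpa using this
          rcases mul_eq_zero.mp h4 with h5 | h5
          · exact absurd (sub_eq_zero.mp h5) h
          · exact h5
        rw [h3]; simp [h]

lemma E_hs {a b q h g u : ℂ[X]} (hu1 : (a * q) * derivative h = h * u) :
    E a b (q * (h * g)) =
      h * ((a * q) * derivative g + u * g + (derivative (a * q) + b * q) * g) := by
  unfold E
  have e1 : a * (q * (h * g)) = (a * q) * (h * g) := by ring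
  rw [e1, derivative_mul (f := a * q), derivative_mul (f := h)]
  generalize derivative (a * q) = A' at *
  have e2 : A' * (h * g) + a * q * (derivative h * g + h * derivative g) + b * (q * (h * g))
      = A' * (h * g) + (a * q * derivative h) * g + a * q * h * derivative g
        + b * (q * (h * g)) := by ring
  rw [e2, hu1]
  ring

lemma step_identity {h g g1 W : ℂ[X]} {τ lam : ℂ} (hlam0 : lam ≠ 0)
    (hg1 : W - C lam * g = (X - C τ) * g1) :
    1 - ((X - C τ) * h) * (C (-lam⁻¹) * g1) = (1 - h * g) + C (lam⁻¹) * (h * W) := by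
  have e2 : W = C lam * g + (X - C τ) * g1 := by rw [← hg1]; ring
  have e3 : (C (lam⁻¹) : ℂ[X]) * C lam = 1 := by
    rw [← C_mul, inv_mul_cancel₀ hlam0, C_1]
  rw [e2, C_neg]
  generalize (C (lam⁻¹) : ℂ[X]) = c at *
  generalize (C lam : ℂ[X]) = c' at *
  generalize (X - C τ : ℂ[X]) = x at *
  have : c * (h * (c' * g + x * g1)) = (c * c') * (h * g) + c * (h * (x * g1)) := by ring
  rw [this, e3]
  ring

/-- key inductive step -/
lemma exists_approx {L : ℂ[X] →ₗ[ℂ] ℂ} {a b f q d : ℂ[X]} (hE : ∀ g, L (E a b g) = 0)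
    (hq : a * derivative f * q = aeval f d * f)
    (h1 : InK L f f)
    (s : Multiset ℂ)
    (hA : ∀ τ ∈ s, (a * q).eval τ = 0)
    (hlam : ∀ τ ∈ s, ∀ j : ℕ, ((j : ℂ) + 1) * (derivative (a * q)).eval τ + (b * q).eval τ ≠ 0) :
    ∃ g : ℂ[X], InK L f (1 - hs s * g) := by
  induction s using Multiset.induction_on with
  | empty => exact ⟨1, by simpa [hs_zero] using InK.zero L f⟩
  | cons τ s ih =>
    obtain ⟨g, hg⟩ := ih (fun τ hτ => hA τ (Multiset.mem_cons_of_mem hτ))
      (fun τ hτ => hlam τ (Multiset.mem_cons_of_mem hτ))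
    obtain ⟨u, hu1, hu2⟩ := exists_u (a * q) s (fun τ hτ => hA τ (Multiset.mem_cons_of_mem hτ))
    have hτA : (a * q).eval τ = 0 := hA τ (Multiset.mem_cons_self τ s)
    have hK1 : InK L f (f * (hs s * g)) := by
      have e : f * (hs s * g) = f + C (-1) * (f * (1 - hs s * g)) := by
        simp only [map_neg, map_one]; ring
      rw [e]
      exact h1.add (hg.mulf.smulC _)
    have hK2 : InK L f (E a b (q * (hs s * g))) := by
      apply InK_E hE
      have e : a * derivative f * (q * (hs s * g)) = aeval f d * (f * (hs s * g)) := by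
        have e1 : a * derivative f * (q * (hs s * g))
            = (a * derivative f * q) * (hs s * g) := by ring
        rw [e1, hq]
        ring
      rw [e]
      exact hK1.aeval d
    have hlam0 := hlam τ (Multiset.mem_cons_self τ s) (s.count τ)
    rw [E_hs hu1] at hK2
    have hWτ : (((a * q) * derivative g + u * g + (derivative (a * q) + b * q) * g)
        - C (((s.count τ : ℂ) + 1) * (derivative (a * q)).eval τ + (b * q).eval τ) * g).eval τ
        = 0 := by
      rw [eval_sub, eval_add, eval_add, eval_mul, hτA, eval_mul, hu2 τ hτA]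
      simp only [eval_mul, eval_C, eval_add]
      ring
    obtain ⟨g1, hg1⟩ := dvd_iff_isRoot.mpr hWτ
    refine ⟨C (-(((s.count τ : ℂ) + 1) * (derivative (a * q)).eval τ + (b * q).eval τ)⁻¹) * g1, ?_⟩
    rw [hs_cons, step_identity hlam0 hg1]
    exact hg.add (hK2.smulC _)

lemma rootMult_le_one {a : ℂ[X]} (ha0 : a ≠ 0)
    (ha : ∀ τ, a.eval τ = 0 → (derivative a).eval τ ≠ 0) (τ : ℂ) : a.rootMultiplicity τ ≤ 1 := by
  by_contra h
  push Not at h
  rw [one_lt_rootMultiplicity_iff_isRoot ha0] at h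
  exact ha τ h.1 h.2

/-- existence of the multiplier `q`. -/
lemma exists_q {a f : ℂ[X]} (ha0 : a ≠ 0)
    (ha : ∀ τ, a.eval τ = 0 → (derivative a).eval τ ≠ 0) (hf : derivative f ≠ 0) :
    ∃ q d : ℂ[X], d.eval 0 ≠ 0 ∧ a * derivative f * q = aeval f d * f := by
  classical
  have hf0 : f ≠ 0 := by
    rintro rfl; simp at hf
  have hT : a * derivative f ≠ 0 := mul_ne_zero ha0 hf
  set T := a * derivative f with hTdef
  set R1 := T.roots.filter (fun σ => f.eval σ ≠ 0) with hR1
  set R0 := T.roots.filter (fun σ => ¬ f.eval σ ≠ 0) with hR0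
  set d : ℂ[X] := (R1.map (fun σ => X - C (f.eval σ))).prod with hd
  have hsplit : T = C T.leadingCoeff * (hs R1 * hs R0) := by
    have h1 : T.roots = R1 + R0 := (Multiset.filter_add_not _ _).symm
    have h2 : T = C T.leadingCoeff * (T.roots.map (fun σ => X - C σ)).prod :=
      ((IsAlgClosed.splits T).eq_prod_roots)
    conv_lhs => rw [h2, h1]
    rw [Multiset.map_add, Multiset.prod_add]
    rfl
  have hd0 : d.eval 0 ≠ 0 := by
    rw [hd, eval_multiset_prod]
    apply Multiset.prod_ne_zero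
    intro h
    rw [Multiset.map_map, Multiset.mem_map] at h
    obtain ⟨σ, hσ, h2⟩ := h
    have := (Multiset.mem_filter.mp hσ).2
    apply this
    simpa using h2
  have hd1 : hs R1 ∣ aeval f d := by
    rw [hd, map_multiset_prod, Multiset.map_map]
    unfold hs
    apply Multiset.prod_dvd_prod_of_dvd
    intro σ _
    have : (f - C (f.eval σ)).eval σ = 0 := by simp
    have h2 := dvd_iff_isRoot.mpr this
    simpa [aeval_C] using h2
  have hd2 : hs R0 ∣ f := by
    have hle : R0 ≤ f.roots := by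
      rw [Multiset.le_iff_count]
      intro σ
      rw [hR0]
      by_cases hσ : f.eval σ = 0
      · rw [Multiset.count_filter_of_pos (by simpa using hσ)]
        rw [count_roots, count_roots, hTdef, rootMultiplicity_mul (by rw [← hTdef]; exact hT)]
        have h1 := rootMult_le_one ha0 ha σ
        have h2 : (derivative f).rootMultiplicity σ = f.rootMultiplicity σ - 1 :=
          derivative_rootMultiplicity_of_root hσ
        have h3 : 0 < f.rootMultiplicity σ := (rootMultiplicity_pos hf0).mpr hσ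
        omega
      · rw [Multiset.count_filter_of_neg (by simpa using hσ)]
        exact Nat.zero_le _
    have h1 : hs R0 ∣ hs f.roots := by
      unfold hs
      exact Multiset.prod_dvd_prod_of_le (Multiset.map_le_map hle)
    refine h1.trans ?_
    exact Polynomial.prod_multiset_X_sub_C_dvd f
  have hlc : T.leadingCoeff ≠ 0 := leadingCoeff_ne_zero.mpr hT
  have hdvd : T ∣ aeval f d * f := by
    rw [hsplit]
    have h1 : hs R1 * hs R0 ∣ aeval f d * f := mul_dvd_mul hd1 hd2
    have h2 : IsUnit (C T.leadingCoeff : ℂ[X]) := isUnit_C.mpr (isUnit_iff_ne_zero.mpr hlc)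
    exact (h2.mul_left_dvd).mpr h1
  obtain ⟨q, hq⟩ := hdvd
  exact ⟨q, d, hd0, hq.symm⟩

lemma A_simple {a f q d : ℂ[X]} (hf : derivative f ≠ 0) (hd : d.eval 0 ≠ 0)
    (hq : a * derivative f * q = aeval f d * f) {τ : ℂ} (hτ : f.eval τ = 0) :
    (a * q).eval τ = 0 ∧ (derivative (a * q)).eval τ ≠ 0 := by
  have hf0 : f ≠ 0 := by
    rintro rfl; simp at hf
  have hdf : (aeval f d : ℂ[X]).eval τ ≠ 0 := by
    have : (aeval f d : ℂ[X]) = d.comp f := rfl
    rw [this, eval_comp, hτ]
    exact hd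
  have hdf0 : (aeval f d : ℂ[X]) ≠ 0 := by
    intro h; rw [h] at hdf; simp at hdf
  have hprod : (aeval f d : ℂ[X]) * f ≠ 0 := mul_ne_zero hdf0 hf0
  have hq2 : (a * q) * derivative f = aeval f d * f := by rw [← hq]; ring
  have hA0 : a * q ≠ 0 := by
    intro h; rw [h, zero_mul] at hq2; exact hprod hq2.symm
  have h1 : ((a * q) * derivative f).rootMultiplicity τ
      = (aeval f d * f).rootMultiplicity τ := by rw [hq2]
  rw [rootMultiplicity_mul (mul_ne_zero hA0 hf), rootMultiplicity_mul hprod,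
    derivative_rootMultiplicity_of_root hτ, rootMultiplicity_eq_zero hdf] at h1
  have h3 : 0 < f.rootMultiplicity τ := (rootMultiplicity_pos hf0).mpr hτ
  have h4 : (a * q).rootMultiplicity τ = 1 := by omega
  constructor
  · have : 0 < (a * q).rootMultiplicity τ := by omega
    exact (rootMultiplicity_pos hA0).mp this
  · intro h5
    have h6 : (a * q).eval τ = 0 := by
      have : 0 < (a * q).rootMultiplicity τ := by omega
      exact (rootMultiplicity_pos hA0).mp this
    have := (one_lt_rootMultiplicity_iff_isRoot hA0).mpr ⟨h6, h5⟩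
    omega

lemma lam_ne {a b f q d : ℂ[X]} (hf : derivative f ≠ 0) (hd : d.eval 0 ≠ 0)
    (hq : a * derivative f * q = aeval f d * f)
    (hab : ∀ τ, a.eval τ = 0 → ∀ j : ℕ, ((j : ℂ) + 1) * (derivative a).eval τ + b.eval τ ≠ 0)
    {τ : ℂ} (hτ : f.eval τ = 0) (j : ℕ) :
    ((j : ℂ) + 1) * (derivative (a * q)).eval τ + (b * q).eval τ ≠ 0 := by
  obtain ⟨h1, h2⟩ := A_simple hf hd hq hτ
  by_cases haτ : a.eval τ = 0
  · have h3 : (derivative (a * q)).eval τ = (derivative a).eval τ * q.eval τ := by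
      rw [derivative_mul]; simp [haτ]
    rw [h3] at h2 ⊢
    have hqτ : q.eval τ ≠ 0 := right_ne_zero_of_mul h2
    have h4 : ((j : ℂ) + 1) * ((derivative a).eval τ * q.eval τ) + (b * q).eval τ
        = (((j : ℂ) + 1) * (derivative a).eval τ + b.eval τ) * q.eval τ := by
      rw [eval_mul]; ring
    rw [h4]
    exact mul_ne_zero (hab τ haτ j) hqτ
  · have hqτ : q.eval τ = 0 := by
      rw [eval_mul] at h1
      exact (mul_eq_zero.mp h1).resolve_left haτ
    rw [eval_mul, hqτ, mul_zero, add_zero]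
    refine mul_ne_zero ?_ h2
    exact_mod_cast Nat.succ_ne_zero j

/-- the approximation statement -/
lemma exists_approx_pow {L : ℂ[X] →ₗ[ℂ] ℂ} {a b f : ℂ[X]} (hE : ∀ g, L (E a b g) = 0)
    (ha0 : a ≠ 0) (ha : ∀ τ, a.eval τ = 0 → (derivative a).eval τ ≠ 0)
    (hab : ∀ τ, a.eval τ = 0 → ∀ j : ℕ, ((j : ℂ) + 1) * (derivative a).eval τ + b.eval τ ≠ 0)
    (hf : derivative f ≠ 0) (h1 : InK L f f) (N : ℕ) :
    ∃ g : ℂ[X], InK L f (1 - f ^ N * g) := by
  obtain ⟨q, d, hd, hq⟩ := exists_q ha0 ha hf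
  have hmem : ∀ τ ∈ (f ^ N).roots, f.eval τ = 0 := by
    intro τ hτ
    have h := isRoot_of_mem_roots hτ
    unfold IsRoot at h
    rw [eval_pow] at h
    by_contra h0
    exact pow_ne_zero N h0 h
  obtain ⟨g, hg⟩ := exists_approx hE hq h1 (f ^ N).roots
    (fun τ hτ => (A_simple hf hd hq (hmem τ hτ)).1)
    (fun τ hτ j => lam_ne hf hd hq hab (hmem τ hτ) j)
  have hf0 : f ≠ 0 := by
    rintro rfl; simp at hf
  have hsplit : f ^ N = C (f ^ N).leadingCoeff * hs (f ^ N).roots :=
    (IsAlgClosed.splits (f ^ N)).eq_prod_roots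
  have hlc : (f ^ N).leadingCoeff ≠ 0 := leadingCoeff_ne_zero.mpr (pow_ne_zero _ hf0)
  refine ⟨C ((f ^ N).leadingCoeff)⁻¹ * g, ?_⟩
  have e : f ^ N * (C ((f ^ N).leadingCoeff)⁻¹ * g) = hs (f ^ N).roots * g := by
    generalize f ^ N = F at *
    have e3 : (C F.leadingCoeff : ℂ[X]) * C (F.leadingCoeff)⁻¹ = 1 := by
      rw [← C_mul, mul_inv_cancel₀ hlc, C_1]
    calc F * (C (F.leadingCoeff)⁻¹ * g)
        = (C F.leadingCoeff * hs F.roots) * (C (F.leadingCoeff)⁻¹ * g) := by rw [← hsplit]
      _ = (C F.leadingCoeff * C (F.leadingCoeff)⁻¹) * (hs F.roots * g) := by ring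
      _ = _ := by rw [e3, one_mul]
  rw [e]
  exact hg

/-- `K` as a submodule of `ℂ[X]` seen as a `ℂ[X]`-module with `X` acting as `f`. -/
noncomputable def Ksub (L : ℂ[X] →ₗ[ℂ] ℂ) (f : ℂ[X]) :
    Submodule ℂ[X] (Module.AEval ℂ ℂ[X] f) where
  carrier := {g | InK L f ((Module.AEval.of ℂ ℂ[X] f).symm g)}
  add_mem' := by
    intro g h hg hh
    simp only [Set.mem_setOf_eq, map_add] at *
    exact hg.add hh
  zero_mem' := by
    simp only [Set.mem_setOf_eq, map_zero]
    exact InK.zero L f
  smul_mem' := by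
    intro p g hg
    simp only [Set.mem_setOf_eq, Module.AEval.of_symm_smul, smul_eq_mul] at *
    exact hg.aeval p

lemma mem_Ksub {L : ℂ[X] →ₗ[ℂ] ℂ} {f g : ℂ[X]} :
    Module.AEval.of ℂ ℂ[X] f g ∈ Ksub L f ↔ InK L f g := by
  change InK L f ((Module.AEval.of ℂ ℂ[X] f).symm (Module.AEval.of ℂ ℂ[X] f g)) ↔ _
  rw [LinearEquiv.symm_apply_apply]

/-- finiteness of `ℂ[X]` over `ℂ[f]`. -/
lemma finite_aeval {f : ℂ[X]} (hf : 0 < f.natDegree) :
    Module.Finite ℂ[X] (Module.AEval ℂ ℂ[X] f) := by
  classical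
  refine ⟨⟨(Finset.range f.natDegree).image (fun i => Module.AEval.of ℂ ℂ[X] f (X ^ i)), ?_⟩⟩
  rw [eq_top_iff]
  rintro x -
  set S := Submodule.span ℂ[X]
    (((Finset.range f.natDegree).image
      (fun i => Module.AEval.of ℂ ℂ[X] f (X ^ i)) : Finset _) : Set (Module.AEval ℂ ℂ[X] f))
    with hS
  have key : ∀ n : ℕ, ∀ g : ℂ[X], g.natDegree < n → Module.AEval.of ℂ ℂ[X] f g ∈ S := by
    intro n
    induction n with
    | zero => intro g hg; exact absurd hg (Nat.not_lt_zero _)
    | succ n ih =>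
      intro g hg
      by_cases hgn : g.natDegree < f.natDegree
      · rw [g.as_sum_range_C_mul_X_pow, map_sum]
        apply Submodule.sum_mem
        intro i hi
        have hi' : i < f.natDegree := by
          have := Finset.mem_range.mp hi; omega
        have : Module.AEval.of ℂ ℂ[X] f (C (g.coeff i) * X ^ i)
            = (C (g.coeff i) : ℂ[X]) • Module.AEval.of ℂ ℂ[X] f (X ^ i) := by
          rw [← Module.AEval.of_aeval_smul]
          simp [aeval_C]
        rw [this]
        apply Submodule.smul_mem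
        apply Submodule.subset_span
        simp only [Finset.coe_image, Finset.coe_range]
        exact ⟨i, hi', rfl⟩
      · push Not at hgn
        have hf0 : f ≠ 0 := by rintro rfl; simp at hf
        have hlc : f.leadingCoeff ≠ 0 := leadingCoeff_ne_zero.mpr hf0
        -- subtract the leading term
        set c := g.leadingCoeff / f.leadingCoeff with hc
        set j := g.natDegree - f.natDegree with hj
        have hg0 : 0 < g.natDegree := by omega
        have hgne : g ≠ 0 := by rintro rfl; simp at hg0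
        have hcne : c ≠ 0 := div_ne_zero (leadingCoeff_ne_zero.mpr hgne) hlc
        have hX : Module.AEval.of ℂ ℂ[X] f (f * (C c * X ^ j)) ∈ S := by
          have : Module.AEval.of ℂ ℂ[X] f (f * (C c * X ^ j))
              = (X : ℂ[X]) • Module.AEval.of ℂ ℂ[X] f (C c * X ^ j) := by
            rw [Module.AEval.X_smul_of]; rfl
          rw [this]
          apply Submodule.smul_mem
          apply ih
          have := natDegree_C_mul_X_pow_le c j
          omega
        have hsub : Module.AEval.of ℂ ℂ[X] f (g - f * (C c * X ^ j)) ∈ S := by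
          apply ih
          have hdeg : (f * (C c * X ^ j)).natDegree = g.natDegree := by
            rw [natDegree_mul hf0 (by
              simp [hcne]), natDegree_C_mul_X_pow j c hcne]
            omega
          have hlc2 : (f * (C c * X ^ j)).leadingCoeff = g.leadingCoeff := by
            rw [leadingCoeff_mul, leadingCoeff_C_mul_X_pow, hc]
            field_simp
          have hlt : (g - f * (C c * X ^ j)).degree < g.degree := by
            apply degree_sub_lt _ hgne hlc2.symm
            rw [degree_eq_natDegree hgne, degree_eq_natDegree (by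
              intro h; rw [h] at hdeg; simp at hdeg; omega), hdeg]
          by_cases h0 : g - f * (C c * X ^ j) = 0
          · rw [h0]; simp; omega
          · have := natDegree_lt_natDegree h0 hlt
            omega
        have : g = (g - f * (C c * X ^ j)) + f * (C c * X ^ j) := by ring
        rw [this, map_add]
        exact Submodule.add_mem _ hsub hX
  have := key (((Module.AEval.of ℂ ℂ[X] f).symm x).natDegree + 1)
    ((Module.AEval.of ℂ ℂ[X] f).symm x) (Nat.lt_succ_self _)
  rwa [LinearEquiv.apply_symm_apply] at this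

/-- Krull's intersection theorem in the finitely generated module `ℂ[X] / K`. -/
lemma one_mem {L : ℂ[X] →ₗ[ℂ] ℂ} {f : ℂ[X]} (hf : 0 < f.natDegree) (h1 : InK L f f)
    (h : ∀ N : ℕ, ∃ g : ℂ[X], InK L f (1 - f ^ N * g)) : InK L f 1 := by
  haveI := finite_aeval hf
  set x : (Module.AEval ℂ ℂ[X] f) ⧸ (Ksub L f) :=
    (Ksub L f).mkQ (Module.AEval.of ℂ ℂ[X] f 1) with hx
  have hmem : x ∈ (⨅ i : ℕ, (Ideal.span {(X : ℂ[X])}) ^ i • ⊤ :
      Submodule ℂ[X] ((Module.AEval ℂ ℂ[X] f) ⧸ (Ksub L f))) := by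
    rw [Submodule.mem_iInf]
    intro N
    obtain ⟨g, hg⟩ := h N
    have hxg : x = (X ^ N : ℂ[X]) • (Ksub L f).mkQ (Module.AEval.of ℂ ℂ[X] f g) := by
      rw [hx, ← map_smul, Module.AEval.X_pow_smul_of]
      rw [← sub_eq_zero, ← map_sub, ← map_sub, smul_eq_mul]
      rw [Submodule.mkQ_apply, Submodule.Quotient.mk_eq_zero]
      exact mem_Ksub.mpr hg
    rw [hxg]
    apply Submodule.smul_mem_smul
    · exact Ideal.pow_mem_pow (Ideal.mem_span_singleton_self _) N
    · exact Submodule.mem_top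
  rw [Ideal.mem_iInf_smul_pow_eq_bot_iff] at hmem
  obtain ⟨⟨r, hr⟩, hrx⟩ := hmem
  obtain ⟨s, hs⟩ := Ideal.mem_span_singleton'.mp hr
  have hXx : (X : ℂ[X]) • x = 0 := by
    rw [hx, ← map_smul, Module.AEval.X_smul_of, smul_eq_mul, mul_one,
      Submodule.mkQ_apply, Submodule.Quotient.mk_eq_zero]
    exact mem_Ksub.mpr h1
  have hx0 : x = 0 := by
    rw [← hrx]
    simp only
    rw [← hs, mul_smul, hXx, smul_zero]
  rw [hx, Submodule.mkQ_apply, Submodule.Quotient.mk_eq_zero] at hx0
  exact mem_Ksub.mp hx0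

/-- **Main theorem.** -/
theorem eq_zero_of_moments {L : ℂ[X] →ₗ[ℂ] ℂ} {a b f : ℂ[X]} (hE : ∀ g, L (E a b g) = 0)
    (hL : L 1 ≠ 0)
    (ha0 : a ≠ 0) (ha : ∀ τ, a.eval τ = 0 → (derivative a).eval τ ≠ 0)
    (hab : ∀ τ, a.eval τ = 0 → ∀ j : ℕ, ((j : ℂ) + 1) * (derivative a).eval τ + b.eval τ ≠ 0)
    (hm : ∀ m : ℕ, 1 ≤ m → L (f ^ m) = 0) : f = 0 := by
  by_contra hf0
  have h1 : InK L f f := by
    intro k
    rw [← pow_succ]
    exact hm (k + 1) (by omega)
  rcases Nat.eq_zero_or_pos f.natDegree with hd | hd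
  · rw [eq_C_of_natDegree_eq_zero hd] at hm hf0
    have := hm 1 le_rfl
    rw [pow_one] at this
    have h2 : (C (f.coeff 0) : ℂ[X]) = (f.coeff 0) • 1 := by rw [smul_eq_C_mul, mul_one]
    rw [h2, map_smul, smul_eq_mul] at this
    rcases mul_eq_zero.mp this with h3 | h3
    · rw [h3] at hf0; simp at hf0
    · exact hL h3
  · have hf : derivative f ≠ 0 := by
      intro h
      have := natDegree_eq_zero_of_derivative_eq_zero h
      omega
    have h2 := one_mem hd h1 (fun N => exists_approx_pow hE ha0 ha hab hf h1 N)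
    have := h2 0
    rw [pow_zero, one_mul] at this
    exact hL this

end Pool.Agent.MP3bbc5b
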